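import Mathlib
import Pool.Agent.H96.Kur.PathGS
import Pool.Agent.H96.Kur.Trap

/-!
Adding a universal vertex can destroy global synchronization of the homogeneous Kuramoto model.

The witness `G` is the path on seven vertices with its vertices replaced by cliques of sizes
`45, 3, 19, 3, 19, 3, 45`, consecutive cliques being completely joined.
* `G` is globally synchronizing because it is a path blow-up with odd class sizes: every
  equilibrium with order parameters nonzero is strictly unstable unless it is the synchronous
  one, the remaining equilibria are avoided almost surely (`PathGS`, `path_sync`).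
* `G + v` has an energy barrier around a kink state (`KinkBarrier`, `Trap`), an open set
  of initial states never synchronizes.
-/

open Set MeasureTheory Filter
open scoped Topology

namespace Pool.Agent.Results.MP_d89e95_an.UniversalVertex

/-- The homogeneous Kuramoto vector field on a finite simple graph `G`: its `i`-th component at
the state `θ` is the sum of `sin (θ j - θ i)` over the neighbours `j` of `i`. -/
noncomputable def kuramoto {V : Type} [Fintype V] (G : SimpleGraph V) (θ : V → ℝ) : V → ℝ :=
  open Classical in fun i => ∑ j, if G.Adj i j then Real.sin (θ j - θ i) else 0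

/-- `θ` is a solution of the Kuramoto system on the time interval `[0, ∞)`. -/
def IsSolution {V : Type} [Fintype V] (G : SimpleGraph V) (θ : ℝ → V → ℝ) : Prop :=
  ∀ t : ℝ, 0 ≤ t → HasDerivWithinAt θ (kuramoto G (θ t)) (Ici 0) t

/-- `G` is globally synchronizing: for Lebesgue-almost every starting point `x`, the solution
with `θ 0 = x` satisfies `θ i - θ j → 0` modulo `2 π` for all vertices `i, j`. -/
def GloballySynchronizing {V : Type} [Fintype V] (G : SimpleGraph V) : Prop :=
  ∀ᵐ x : V → ℝ, ∃ θ : ℝ → V → ℝ, θ 0 = x ∧ IsSolution G θ ∧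
    ∀ i j, Tendsto (fun t => ((θ t i - θ t j : ℝ) : Real.Angle)) atTop (𝓝 0)

/-- The graph obtained from `G` by adding a new vertex `none` adjacent to every vertex of `G`. -/
def addUniversal {V : Type} (G : SimpleGraph V) : SimpleGraph (Option V) where
  Adj
    | some a, some b => G.Adj a b
    | none, none => False
    | _, _ => True
  symm := ⟨fun x y h => by
    rcases x with _ | a <;> rcases y with _ | b
    · exact h
    · trivial
    · trivial
    · exact (show G.Adj b a from (show G.Adj a b from h).symm)⟩
  loopless := ⟨fun x h => by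
    cases x
    · exact h
    · exact G.irrefl h⟩

/-- Every starting point has a solution, and it is unique; so speaking of the solution in
`GloballySynchronizing` is meaningful. -/
theorem exists_unique_solution {V : Type} [Fintype V] (G : SimpleGraph V) (x : V → ℝ) :
    ∃ θ : ℝ → V → ℝ, θ 0 = x ∧ IsSolution G θ ∧
      ∀ θ' : ℝ → V → ℝ, θ' 0 = x → IsSolution G θ' → ∀ t : ℝ, 0 ≤ t → θ' t = θ t := by
  classical
  have hk : kuramoto G = H96.Kur.kvf (fun i j => if G.Adj i j then (1 : ℝ) else 0) := by
    funext θ i
    unfold kuramoto H96.Kur.kvf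
    refine Finset.sum_congr rfl fun j _ => ?_
    by_cases h : G.Adj i j <;> simp [h]
  obtain ⟨φ, hφ⟩ := H96.Kur.exists_kflow (fun i j : V => if G.Adj i j then (1 : ℝ) else 0)
  refine ⟨fun t => φ t x, hφ.zero x, fun t _ => ?_, fun θ' h0 h' t ht => ?_⟩
  · rw [hk]
    exact (hφ.deriv x t).hasDerivWithinAt
  · have := hφ.unique_half (H96.Kur.kvf_lipschitz _) (γ := θ')
      (fun s hs => by have := h' s hs; rwa [hk] at this) t ht
    rw [this, h0]

/-- The graph: the blow-up of the path on seven classes by cliques. -/
def blowup {V : Type} (c : V → ℕ) : SimpleGraph V where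
  Adj a b := a ≠ b ∧ (c a = c b ∨ c a = c b + 1 ∨ c b = c a + 1)
  symm := ⟨fun a b h => ⟨h.1.symm, by
    rcases h.2 with h | h | h
    · exact Or.inl h.symm
    · exact Or.inr (Or.inr h)
    · exact Or.inr (Or.inl h)⟩⟩
  loopless := ⟨fun a h => h.1 rfl⟩

theorem kuramoto_blowup {V : Type} [Fintype V] (c : V → ℕ) :
    kuramoto (blowup c) = H96.Kur.kvf (H96.Kur.pathA c) := by
  classical
  funext θ i
  unfold kuramoto H96.Kur.kvf
  refine Finset.sum_congr rfl fun j _ => ?_
  by_cases h : (i ≠ j ∧ (c i = c j ∨ c i = c j + 1 ∨ c j = c i + 1))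
  · have h' : (blowup c).Adj i j := h
    unfold H96.Kur.pathA
    rw [if_pos h', if_pos h, one_mul]
  · have h' : ¬ (blowup c).Adj i j := h
    unfold H96.Kur.pathA
    rw [if_neg h', if_neg h, zero_mul]

theorem kuramoto_star {V : Type} [Fintype V] (c : V → ℕ) :
    kuramoto (addUniversal (blowup c)) = H96.Kur.kvf (H96.Kur.starA (H96.Kur.pathA c)) := by
  classical
  funext θ i
  unfold kuramoto H96.Kur.kvf
  refine Finset.sum_congr rfl fun j _ => ?_
  cases i with
  | none =>
    cases j with
    | none =>
      have h' : ¬ (addUniversal (blowup c)).Adj none none := fun h => h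
      rw [if_neg h']
      simp [H96.Kur.starA]
    | some b =>
      have h' : (addUniversal (blowup c)).Adj none (some b) := trivial
      rw [if_pos h']
      simp [H96.Kur.starA]
  | some a =>
    cases j with
    | none =>
      have h' : (addUniversal (blowup c)).Adj (some a) none := trivial
      rw [if_pos h']
      simp [H96.Kur.starA]
    | some b =>
      by_cases h : (a ≠ b ∧ (c a = c b ∨ c a = c b + 1 ∨ c b = c a + 1))
      · have h' : (addUniversal (blowup c)).Adj (some a) (some b) := h
        rw [if_pos h']
        simp only [H96.Kur.starA]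
        unfold H96.Kur.pathA
        rw [if_pos h, one_mul]
      · have h' : ¬ (addUniversal (blowup c)).Adj (some a) (some b) := h
        rw [if_neg h']
        simp only [H96.Kur.starA]
        unfold H96.Kur.pathA
        rw [if_neg h, zero_mul]

/-- class sizes -/
def sz : Fin 7 → ℕ := ![45, 3, 19, 3, 19, 3, 45]

/-- vertices -/
abbrev Vtx : Type := Σ i : Fin 7, Fin (sz i)

/-- class function -/
def cl (a : Vtx) : ℕ := (a.1 : ℕ) + 1

theorem card_cls (j : Fin 7) : (H96.Kur.cls cl ((j : ℕ) + 1)).card = sz j := by
  classical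
  have h : H96.Kur.cls cl ((j : ℕ) + 1) =
      Finset.univ.map (⟨fun k : Fin (sz j) => (⟨j, k⟩ : Vtx), fun _ _ h => by
        simpa using h⟩ : Fin (sz j) ↪ Vtx) := by
    ext a
    simp only [H96.Kur.mem_cls, cl, Finset.mem_map, Finset.mem_univ, true_and,
      Function.Embedding.coeFn_mk]
    constructor
    · intro h
      have h1 : a.1 = j := Fin.ext (by omega)
      obtain ⟨i, k⟩ := a
      simp only at h1
      subst h1
      exact ⟨k, rfl⟩
    · rintro ⟨k, rfl⟩
      rfl
  rw [h, Finset.card_map, Finset.card_univ, Fintype.card_fin]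

/-- **Main result.** There is a finite simple graph that is globally synchronizing, while the
graph obtained by adding a universal vertex is not. -/
theorem result : ∃ (V : Type) (_ : Fintype V) (G : SimpleGraph V),
    GloballySynchronizing G ∧ ¬ GloballySynchronizing (addUniversal G) := by
  classical
  refine ⟨Vtx, inferInstance, blowup cl, ?_, ?_⟩
  · have hc : ∀ a : Vtx, 1 ≤ cl a := fun a => Nat.le_add_left 1 _
    have hn : ∀ a : Vtx, cl a ≤ 7 := fun a => a.1.2
    have hodd : ∀ k, 1 ≤ k → k ≤ 7 → Odd (H96.Kur.cls cl k).card := by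
      intro k hk1 hk7
      obtain ⟨j, rfl⟩ : ∃ j : Fin 7, k = (j : ℕ) + 1 := ⟨⟨k - 1, by omega⟩, by simp; omega⟩
      rw [card_cls]
      fin_cases j <;> simp [sz] <;> decide
    obtain ⟨φ, hφ⟩ := H96.Kur.exists_kflow (H96.Kur.pathA cl)
    have h := H96.Kur.path_sync hc hn hodd hφ
    unfold GloballySynchronizing
    filter_upwards [h] with x hx
    refine ⟨fun t => φ t x, hφ.zero x, fun t _ => ?_, fun i j => hx i j⟩
    rw [kuramoto_blowup]
    exact (hφ.deriv x t).hasDerivWithinAt
  · intro hGS
    obtain ⟨φ, hφ⟩ := H96.Kur.exists_kflow (H96.Kur.starA (H96.Kur.pathA cl))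
    have hk : H96.Kur.IsKinkGraph cl :=
      ⟨fun a => Nat.le_add_left 1 _, fun a => a.1.2, card_cls 0, card_cls 1, card_cls 2,
        card_cls 3, card_cls 4, card_cls 5, card_cls 6⟩
    have hopen := H96.Kur.isOpen_trapSet (V := Vtx) cl
    have hne := H96.Kur.nonempty_trapSet (V := Vtx) cl
    have hpos : 0 < volume (H96.Kur.trapSet (V := Vtx) cl) := hopen.measure_pos volume hne
    -- a synchronizing point in the trap
    have hex : ∃ x ∈ H96.Kur.trapSet (V := Vtx) cl, ∃ θ : ℝ → Option Vtx → ℝ, θ 0 = x ∧
        IsSolution (addUniversal (blowup cl)) θ ∧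
        ∀ i j, Tendsto (fun t => ((θ t i - θ t j : ℝ) : Real.Angle)) atTop (𝓝 0) := by
      by_contra hno
      push Not at hno
      have hsub : H96.Kur.trapSet (V := Vtx) cl ⊆ {x | ¬ ∃ θ : ℝ → Option Vtx → ℝ, θ 0 = x ∧
        IsSolution (addUniversal (blowup cl)) θ ∧
        ∀ i j, Tendsto (fun t => ((θ t i - θ t j : ℝ) : Real.Angle)) atTop (𝓝 0)} := by
        intro x hx
        rintro ⟨θ, h1, h2, h3⟩
        obtain ⟨i, j, hij⟩ := hno x hx θ h1 h2
        exact hij (h3 i j)
      have hzero := measure_mono_null hsub hGS
      rw [hzero] at hpos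
      exact lt_irrefl _ hpos
    obtain ⟨x, hx, θ, h0, hsol, hsync⟩ := hex
    have heq : ∀ t, 0 ≤ t → θ t = φ t x := by
      intro t ht
      have := hφ.unique_half (H96.Kur.kvf_lipschitz _) (γ := θ)
        (fun s hs => by have := hsol s hs; rwa [kuramoto_star] at this) t ht
      rw [this, h0]
    refine H96.Kur.not_sync hk hφ hx fun i j => ?_
    refine (hsync i j).congr' ?_
    filter_upwards [eventually_ge_atTop (0 : ℝ)] with t ht
    rw [heq t ht]

end Pool.Agent.Results.MP_d89e95_an.UniversalVertex
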